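import Pool.Agent.Y272.LC.Stm2

set_option autoImplicit false

/-!
# The slits stay away from the rays near the angle `0` (`St_Sla`)
-/

open Complex Filter Topology Metric Set MeasureTheory

namespace Pool.Agent.Y141.LC

open Pool.Agent.H712R2 Pool.Agent.H713R2 Pool.Agent.H713R2.AR Pool.Agent.W677.Mar
open Pool.Agent.Y272.TY Pool.Agent.Y272.LC

theorem zt_re (s t : ℝ) : (zt s t).re = s := by
  unfold zt
  simp

theorem zt_im (s t : ℝ) : (zt s t).im = 2 * Real.pi * t := by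
  unfold zt
  simp

theorem continuous_zt : Continuous (fun q : ℝ × ℝ => zt q.1 q.2) := by
  unfold zt
  fun_prop

theorem ang {d : ℕ} {Φ : ℂ → ℂ → ℂ} (hb : IsBott d Φ) {c : ℂ} {s s' t t' : ℝ}
    (hs : green d c 0 < s) (hs' : green d c 0 < s') (h : Φ c (zt s t) = Φ c (zt s' t')) :
    ∃ k : ℤ, t = t' + k := by
  obtain ⟨k, hk⟩ := hb.inj c _ _ (by rwa [zt_re]) (by rwa [zt_re]) h
  refine ⟨k, ?_⟩
  have h1 := congrArg Complex.im hk
  rw [zt_im, Complex.add_im, zt_im] at h1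
  have h2 : ((k : ℂ) * (((2 * Real.pi : ℝ) : ℂ) * I)).im = k * (2 * Real.pi) := by simp
  rw [h2] at h1
  have h3 : (0 : ℝ) < 2 * Real.pi := by positivity
  have h4 : 2 * Real.pi * (t - (t' + k)) = 0 := by linarith
  rcases mul_eq_zero.1 h4 with h5 | h5
  · exact absurd h5 h3.ne'
  · linarith

theorem ray_ne {d : ℕ} {Φ : ℂ → ℂ → ℂ} (hb : IsBott d Φ) {c0 : ℂ} {ε x y : ℝ} (hε : 0 < ε)
    (conn : green d c0 0 = 0) {X Y : ℂ → ℝ → ℂ} (rX : Ray d Φ c0 ε x X) (rY : Ray d Φ c0 ε y Y)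
    (hxy : ∀ k : ℤ, y ≠ x + k) (h0 : Y c0 0 ≠ X c0 0) {s s' : ℝ} (hs : 0 ≤ s) (hs' : 0 ≤ s') :
    Y c0 s ≠ X c0 s' := by
  intro h
  have hc := mem_ball_self (x := c0) hε
  have h1 : s = s' := by rw [← rY.grn c0 hc s hs, ← rX.grn c0 hc s' hs', h]
  subst h1
  rcases hs.eq_or_lt with h2 | h2
  · subst h2
    exact h0 h
  · rw [rY.eq c0 hc s (by rwa [conn]), rX.eq c0 hc s (by rwa [conn])] at h
    obtain ⟨k, hk⟩ := ang hb (by rwa [conn]) (by rwa [conn]) h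
    exact hxy k hk

theorem ray_cap_ne {d : ℕ} {Φ : ℂ → ℂ → ℂ} (hb : IsBott d Φ) {c0 : ℂ} {ε y : ℝ} (hε : 0 < ε)
    (conn : green d c0 0 = 0) {Y : ℂ → ℝ → ℂ} (rY : Ray d Φ c0 ε y Y) {l t : ℝ} (hl : 0 < l)
    (hxy : ∀ k : ℤ, y ≠ t + k) {s : ℝ} (hs : 0 ≤ s) : Y c0 s ≠ Φ c0 (zt l t) := by
  intro h
  have hc := mem_ball_self (x := c0) hε
  have h1 : s = l := by
    rw [← rY.grn c0 hc s hs, h, hb.grn c0 _ (by rwa [conn, zt_re]), zt_re]
  subst h1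
  rw [rY.eq c0 hc s (by rwa [conn])] at h
  obtain ⟨k, hk⟩ := ang hb (by rwa [conn]) (by rwa [conn]) h
  exact hxy k hk

theorem ray_contAt {d : ℕ} {Φ : ℂ → ℂ → ℂ} {c0 : ℂ} {ε x : ℝ} (hε : 0 < ε)
    {X : ℂ → ℝ → ℂ} (rX : Ray d Φ c0 ε x X) (s : ℝ) :
    ContinuousAt (fun q : ℂ × ℝ => X q.1 (max q.2 0)) (c0, s) := by
  have h1 : ContinuousOn (fun q : ℂ × ℝ => X q.1 (max q.2 0)) (ball c0 ε ×ˢ univ) := by
    refine rX.cont.comp (f := fun q : ℂ × ℝ => (q.1, max q.2 0)) (by fun_prop) ?_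
    rintro ⟨c, u⟩ ⟨hc, _⟩
    exact ⟨hc, mem_Ici.2 (le_max_right u 0)⟩
  exact h1.continuousAt ((isOpen_ball.prod isOpen_univ).mem_nhds ⟨mem_ball_self hε, trivial⟩)

theorem ray_contOn {d : ℕ} {Φ : ℂ → ℂ → ℂ} {c0 : ℂ} {ε x : ℝ}
    {X : ℂ → ℝ → ℂ} (rX : Ray d Φ c0 ε x X) {c : ℂ} (hc : c ∈ ball c0 ε) :
    ContinuousOn (X c) (Ici 0) := by
  refine rX.cont.comp (f := fun u : ℝ => (c, u)) (by fun_prop) ?_
  intro u hu
  exact ⟨hc, hu⟩

theorem cg {d : ℕ} (hG : Continuous (fun q : ℂ × ℂ => green d q.1 q.2)) {α : Type}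
    [TopologicalSpace α] (f g : α → ℂ) (hf : Continuous f) (hg : Continuous g) :
    Continuous (fun a => green d (f a) (g a)) := by
  have h := hG.comp (hf.prodMk hg)
  exact h

theorem isOpen_dom {d : ℕ} (hG : Continuous (fun q : ℂ × ℂ => green d q.1 q.2)) :
    IsOpen {q : ℂ × ℂ | green d q.1 0 < q.2.re} := by
  have h1 : Continuous fun q : ℂ × ℂ => green d q.1 0 :=
    cg hG (fun q : ℂ × ℂ => q.1) (fun _ => 0) continuous_fst continuous_const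
  have h2 : Continuous fun q : ℂ × ℂ => q.2.re := Complex.continuous_re.comp continuous_snd
  exact isOpen_lt h1 h2

theorem Phi_contAt {d : ℕ} {Φ : ℂ → ℂ → ℂ} (hG : Continuous (fun q : ℂ × ℂ => green d q.1 q.2))
    (hb : IsBott d Φ) {c0 : ℂ} {s t : ℝ} (hs : green d c0 0 < s) :
    ContinuousAt (fun q : ℂ × ℂ => Φ q.1 q.2) (c0, zt s t) :=
  hb.cont.continuousAt ((isOpen_dom hG).mem_nhds (by
    show green d c0 0 < (zt s t).re
    rwa [zt_re]))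

theorem cap_contAt {d : ℕ} {Φ : ℂ → ℂ → ℂ} (hG : Continuous (fun q : ℂ × ℂ => green d q.1 q.2))
    (hb : IsBott d Φ) {c0 : ℂ} {l t : ℝ} (hs : green d c0 0 < l) :
    ContinuousAt (fun q : ℂ × ℝ => Φ q.1 (zt l q.2)) (c0, t) := by
  have h1 : Continuous fun q : ℂ × ℝ => (q.1, zt l q.2) := by
    refine continuous_fst.prodMk ?_
    exact continuous_zt.comp (by fun_prop : Continuous fun q : ℂ × ℝ => (l, q.2))
  exact ContinuousAt.comp (g := fun q : ℂ × ℂ => Φ q.1 q.2)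
    (f := fun q : ℂ × ℝ => (q.1, zt l q.2)) (Phi_contAt hG hb hs) h1.continuousAt

theorem cap_contOn {d : ℕ} {Φ : ℂ → ℂ → ℂ} (hG : Continuous (fun q : ℂ × ℂ => green d q.1 q.2))
    (hb : IsBott d Φ) {c : ℂ} {l a b : ℝ} (hs : green d c 0 < l) :
    ContinuousOn (fun t : ℝ => Φ c (zt l t)) (Icc a b) := by
  intro t _
  have h1 : ContinuousAt (fun t : ℝ => Φ c (zt l t)) t :=
    ContinuousAt.comp (g := fun q : ℂ × ℝ => Φ q.1 (zt l q.2)) (f := fun t : ℝ => (c, t))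
      (cap_contAt hG hb hs) (by fun_prop)
  exact h1.continuousWithinAt

theorem ev_ne {α γ : Type} [TopologicalSpace α] [TopologicalSpace γ] {K : Set γ}
    (hK : IsCompact K) {a0 : α} {f g : α × γ → ℂ} (hf : ∀ b ∈ K, ContinuousAt f (a0, b))
    (hg : ∀ b ∈ K, ContinuousAt g (a0, b)) (hne : ∀ b ∈ K, f (a0, b) ≠ g (a0, b)) :
    ∀ᶠ a in 𝓝 a0, ∀ b ∈ K, f (a, b) ≠ g (a, b) := by
  refine hK.eventually_forall_of_forall_eventually (P := fun a b => f (a, b) ≠ g (a, b))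
    fun b hb => ?_
  have h1 := ((hf b hb).sub (hg b hb)).eventually_ne (sub_ne_zero.2 (hne b hb))
  filter_upwards [h1] with q hq
  exact sub_ne_zero.1 hq

/-- **Main lemma**: the points of the slit do not accumulate at the landing point of a ray outside of
the loop. -/
theorem no_acc (hG : St_Grn) (hF : St_Far) (hH : St_Hom) (hE : St_Enc) {d : ℕ} (hd : 2 ≤ d)
    {Φ : ℂ → ℂ → ℂ} (hb : IsBott d Φ) {c0 : ℂ} {ε x₁ x₂ y θ : ℝ} (hε : 0 < ε)
    (conn : green d c0 0 = 0) {A₁ A₂ Y : ℂ → ℝ → ℂ} (rA1 : Ray d Φ c0 ε x₁ A₁)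
    (rA2 : Ray d Φ c0 ε x₂ A₂) (rY : Ray d Φ c0 ε y Y) (col : ∀ c ∈ ball c0 ε, A₁ c 0 = A₂ c 0)
    (hY : Y c0 0 ≠ A₁ c0 0) (hx : x₁ < x₂) (hx1 : x₂ < x₁ + 1) (hy1 : x₂ - 1 < y) (hy2 : y < x₁)
    (hθ1 : x₁ < θ) (hθ2 : θ < x₂) (c : ℕ → ℂ) (s : ℕ → ℝ) (hc : Tendsto c atTop (𝓝 c0))
    (hs : Tendsto s atTop (𝓝 0)) (hgs : ∀ n, green d (c n) 0 < s n)
    (hz : Tendsto (fun n => Φ (c n) (zt (s n) θ)) atTop (𝓝 (Y c0 0))) : False := by
  obtain ⟨hGc, -, -, -⟩ := hG d hd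
  have hc0 := mem_ball_self (x := c0) hε
  have conn1 : green d c0 0 < 1 := by rw [conn]; exact one_pos
  have nA1 : ∀ k : ℤ, y ≠ x₁ + k := by
    intro k hk
    have h1 : (k : ℝ) < 0 := by linarith
    have h2 : (-1 : ℝ) < k := by linarith
    have h3 : k < 0 := by exact_mod_cast h1
    have h4 : -1 < k := by exact_mod_cast h2
    omega
  have nA2 : ∀ k : ℤ, y ≠ x₂ + k := by
    intro k hk
    have h1 : (k : ℝ) < 0 := by linarith
    have h2 : (-1 : ℝ) < k := by linarith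
    have h3 : k < 0 := by exact_mod_cast h1
    have h4 : -1 < k := by exact_mod_cast h2
    omega
  have nC : ∀ t ∈ Icc x₁ x₂, ∀ k : ℤ, y ≠ t + k := by
    intro t ht k hk
    have h1 : (k : ℝ) < 0 := by linarith [ht.1]
    have h2 : (-1 : ℝ) < k := by linarith [ht.2]
    have h3 : k < 0 := by exact_mod_cast h1
    have h4 : -1 < k := by exact_mod_cast h2
    omega
  have hY2 : Y c0 0 ≠ A₂ c0 0 := by rw [← col c0 hc0]; exact hY
  -- neighbourhoods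
  have gA : ∀ {x : ℝ} {X : ℂ → ℝ → ℂ}, Ray d Φ c0 ε x X → (∀ k : ℤ, y ≠ x + k) →
      Y c0 0 ≠ X c0 0 → (∀ᶠ c in 𝓝 c0, ∀ b ∈ Icc (0 : ℝ) 1 ×ˢ Icc (0 : ℝ) 1,
        Y c (max b.1 0) ≠ X c (max b.2 0)) ∧
      ∀ᶠ a : ℂ × ℂ in 𝓝 (c0, Y c0 0), ∀ u ∈ Icc (0 : ℝ) 1, X a.1 (max u 0) ≠ a.2 := by
    intro x X rX hn h0
    constructor
    · refine ev_ne (isCompact_Icc.prod isCompact_Icc)
        (f := fun q : ℂ × (ℝ × ℝ) => Y q.1 (max q.2.1 0))
        (g := fun q : ℂ × (ℝ × ℝ) => X q.1 (max q.2.2 0)) (fun b _ => ?_) (fun b _ => ?_)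
        fun b _ => ?_
      · exact ContinuousAt.comp (g := fun q : ℂ × ℝ => Y q.1 (max q.2 0))
          (f := fun q : ℂ × (ℝ × ℝ) => (q.1, q.2.1)) (ray_contAt hε rY b.1) (by fun_prop)
      · exact ContinuousAt.comp (g := fun q : ℂ × ℝ => X q.1 (max q.2 0))
          (f := fun q : ℂ × (ℝ × ℝ) => (q.1, q.2.2)) (ray_contAt hε rX b.2) (by fun_prop)
      · exact ray_ne hb hε conn rX rY hn h0 (le_max_right _ _) (le_max_right _ _)
    · refine ev_ne isCompact_Icc (f := fun q : (ℂ × ℂ) × ℝ => X q.1.1 (max q.2 0))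
        (g := fun q : (ℂ × ℂ) × ℝ => q.1.2) (fun u _ => ?_) (fun u _ => ?_) fun u _ => ?_
      · exact ContinuousAt.comp (g := fun q : ℂ × ℝ => X q.1 (max q.2 0))
          (f := fun q : (ℂ × ℂ) × ℝ => (q.1.1, q.2)) (ray_contAt hε rX u) (by fun_prop)
      · fun_prop
      · exact (ray_ne hb hε conn rX rY hn h0 le_rfl (le_max_right _ _)).symm
  obtain ⟨e1, f1⟩ := gA rA1 nA1 hY
  obtain ⟨e2, f2⟩ := gA rA2 nA2 hY2
  have e3 : ∀ᶠ c in 𝓝 c0, ∀ b ∈ Icc (0 : ℝ) 1 ×ˢ Icc x₁ x₂,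
      Y c (max b.1 0) ≠ Φ c (zt 1 b.2) := by
    refine ev_ne (isCompact_Icc.prod isCompact_Icc)
      (f := fun q : ℂ × (ℝ × ℝ) => Y q.1 (max q.2.1 0))
      (g := fun q : ℂ × (ℝ × ℝ) => Φ q.1 (zt 1 q.2.2)) (fun b _ => ?_) (fun b _ => ?_)
      fun b hb' => ?_
    · exact ContinuousAt.comp (g := fun q : ℂ × ℝ => Y q.1 (max q.2 0))
        (f := fun q : ℂ × (ℝ × ℝ) => (q.1, q.2.1)) (ray_contAt hε rY b.1) (by fun_prop)
    · exact ContinuousAt.comp (g := fun q : ℂ × ℝ => Φ q.1 (zt 1 q.2))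
        (f := fun q : ℂ × (ℝ × ℝ) => (q.1, q.2.2)) (cap_contAt hGc hb conn1) (by fun_prop)
    · exact ray_cap_ne hb hε conn rY one_pos (nC _ hb'.2) (le_max_right _ _)
  have f3 : ∀ᶠ a : ℂ × ℂ in 𝓝 (c0, Y c0 0), ∀ t ∈ Icc x₁ x₂, Φ a.1 (zt 1 t) ≠ a.2 := by
    refine ev_ne isCompact_Icc (f := fun q : (ℂ × ℂ) × ℝ => Φ q.1.1 (zt 1 q.2))
      (g := fun q : (ℂ × ℂ) × ℝ => q.1.2) (fun u _ => ?_) (fun u _ => ?_) fun u hu => ?_
    · exact ContinuousAt.comp (g := fun q : ℂ × ℝ => Φ q.1 (zt 1 q.2))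
        (f := fun q : (ℂ × ℂ) × ℝ => (q.1.1, q.2)) (cap_contAt hGc hb conn1) (by fun_prop)
    · fun_prop
    · exact (ray_cap_ne hb hε conn rY one_pos (nC _ hu) le_rfl).symm
  have e4 : ∀ᶠ c in 𝓝 c0, green d c 0 < 1 := by
    have h1 : Continuous fun c : ℂ => green d c 0 :=
      cg hGc (fun c : ℂ => c) (fun _ => 0) continuous_id' continuous_const
    exact h1.continuousAt.eventually_lt continuousAt_const conn1
  -- a ball around the landing point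
  rw [nhds_prod_eq] at f1 f2 f3
  obtain ⟨pa1, hpa1, pb1, hpb1, hf⟩ := eventually_prod_iff.1 ((f1.and f2).and f3)
  obtain ⟨r, hr, hball⟩ := Metric.eventually_nhds_iff_ball.1 hpb1
  have e5 : ∀ᶠ c in 𝓝 c0, Y c 0 ∈ ball (Y c0 0) r := by
    have h1 : ContinuousAt (fun c : ℂ => Y c (max 0 0)) c0 :=
      ContinuousAt.comp (g := fun q : ℂ × ℝ => Y q.1 (max q.2 0)) (f := fun c : ℂ => (c, (0 : ℝ)))
        (ray_contAt hε rY 0) (by fun_prop)
    rw [max_self] at h1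
    exact h1.eventually (ball_mem_nhds _ hr)
  have e6 : ∀ᶠ c in 𝓝 c0, c ∈ ball c0 ε := ball_mem_nhds _ hε
  have E := hc.eventually (((e1.and e2).and (e3.and e4)).and ((e5.and e6).and hpa1))
  have Z := hz.eventually (ball_mem_nhds _ hr)
  have S := hs.eventually (gt_mem_nhds one_pos)
  obtain ⟨n, ⟨⟨⟨hn1, hn2⟩, hn3, hn4⟩, ⟨hn5, hn6⟩, hn7⟩, hnz, hns⟩ := (E.and (Z.and S)).exists
  -- now the parameter is fixed
  set C := c n
  set z := Φ C (zt (s n) θ)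
  have cA1 : ContinuousOn (A₁ C) (Icc 0 1) := (ray_contOn rA1 hn6).mono Icc_subset_Ici_self
  have cA2 : ContinuousOn (A₂ C) (Icc 0 1) := (ray_contOn rA2 hn6).mono Icc_subset_Ici_self
  have cC : ContinuousOn (fun t : ℝ => Φ C (zt 1 t)) (Icc x₁ x₂) := cap_contOn hGc hb hn4
  refine hE d Φ hd hb C (A₁ C) (A₂ C) 1 x₁ x₂ hx hx1 cA1 cA2 (col C hn6)
    (fun u _ hu => ⟨rA1.eq C hn6 u hu, rA2.eq C hn6 u hu⟩)
    (fun u hu => ⟨rA1.grn C hn6 u hu.1, rA2.grn C hn6 u hu.1⟩) (s n) θ (hgs n) hns hθ1 hθ2 ?_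
  have av : ∀ v : ℝ, 0 ≤ v → (∀ u ∈ Icc (0 : ℝ) 1, A₁ C u ≠ Y C v ∧ A₂ C u ≠ Y C v) ∧
      ∀ t ∈ Icc x₁ x₂, Φ C (zt 1 t) ≠ Y C v := by
    intro v hv
    rcases le_or_gt v 1 with h | h
    · refine ⟨fun u hu => ⟨fun he => ?_, fun he => ?_⟩, fun t ht he => ?_⟩
      · have h1 : Y C (max v 0) ≠ A₁ C (max u 0) := hn1 (v, u) ⟨⟨hv, h⟩, hu⟩
        rw [max_eq_left hv, max_eq_left hu.1] at h1
        exact h1 he.symm
      · have h1 : Y C (max v 0) ≠ A₂ C (max u 0) := hn2 (v, u) ⟨⟨hv, h⟩, hu⟩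
        rw [max_eq_left hv, max_eq_left hu.1] at h1
        exact h1 he.symm
      · have h1 : Y C (max v 0) ≠ Φ C (zt 1 t) := hn3 (v, t) ⟨⟨hv, h⟩, ht⟩
        rw [max_eq_left hv] at h1
        exact h1 he.symm
    · have hv1 := rY.grn C hn6 v hv
      refine ⟨fun u hu => ⟨fun he => ?_, fun he => ?_⟩, fun t ht he => ?_⟩
      · have h1 := rA1.grn C hn6 u hu.1
        rw [he, hv1] at h1
        linarith [hu.2]
      · have h1 := rA2.grn C hn6 u hu.1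
        rw [he, hv1] at h1
        linarith [hu.2]
      · have h1 := hb.grn C (zt 1 t) (by rw [zt_re]; exact hn4)
        rw [he, hv1, zt_re] at h1
        linarith
  have cT1 : ContinuousOn (fun q : ℝ × ℝ => A₁ C q.2) (Icc 0 1 ×ˢ Icc 0 1) :=
    cA1.comp continuousOn_snd fun q hq => hq.2
  have cT2 : ContinuousOn (fun q : ℝ × ℝ => A₂ C q.2) (Icc 0 1 ×ˢ Icc 0 1) :=
    cA2.comp continuousOn_snd fun q hq => hq.2
  have cT3 : ContinuousOn (fun q : ℝ × ℝ => Φ C (zt 1 q.2)) (Icc 0 1 ×ˢ Icc x₁ x₂) :=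
    cC.comp (f := fun q : ℝ × ℝ => q.2) continuousOn_snd fun q hq => hq.2
  have ends : A₁ C 1 = Φ C (zt 1 x₁) ∧ A₂ C 1 = Φ C (zt 1 x₂) :=
    ⟨rA1.eq C hn6 1 hn4, rA2.eq C hn6 1 hn4⟩
  -- the loop is bounded
  obtain ⟨r0, hr0⟩ : ∃ r0 : ℝ, (A₁ C '' Icc 0 1 ∪ A₂ C '' Icc 0 1 ∪
      (fun t : ℝ => Φ C (zt 1 t)) '' Icc x₁ x₂) ⊆ closedBall 0 r0 :=
    (((isCompact_Icc.image_of_continuousOn cA1).union (isCompact_Icc.image_of_continuousOn cA2)).union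
      (isCompact_Icc.image_of_continuousOn cC)).isBounded.subset_closedBall 0
  have hgC : Continuous (green d C) :=
    cg hGc (fun _ : ℂ => C) (fun w => w) continuous_const continuous_id'
  obtain ⟨M, hM⟩ := (isCompact_closedBall (0 : ℂ) r0).exists_bound_of_continuousOn hgC.continuousOn
  set S : ℝ := max M 0 + 1
  have hS0 : 0 ≤ S := by
    have := le_max_right M 0
    show 0 ≤ max M 0 + 1
    linarith
  have hSM : M < S := by
    have := le_max_left M 0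
    show M < max M 0 + 1
    linarith
  have hfar : r0 < ‖Y C S - 0‖ := by
    by_contra h1
    rw [not_lt] at h1
    have h2 := hM (Y C S) (by rw [mem_closedBall, dist_eq_norm]; exact h1)
    rw [rY.grn C hn6 S hS0, Real.norm_eq_abs, abs_of_nonneg hS0] at h2
    linarith
  have H1 : HasLog (A₁ C) (A₂ C) (fun t => Φ C (zt 1 t)) 1 x₁ x₂ (Y C S) := by
    refine hF _ _ _ 1 x₁ x₂ r0 (Y C S) 0 zero_le_one hx.le cA1 cA2 cC (col C hn6) ends.1 ends.2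
      (fun u hu => ?_) (fun u hu => ?_) (fun t ht => ?_) hfar
    · have := hr0 (Or.inl (Or.inl ⟨u, hu, rfl⟩))
      rwa [mem_closedBall, dist_eq_norm] at this
    · have := hr0 (Or.inl (Or.inr ⟨u, hu, rfl⟩))
      rwa [mem_closedBall, dist_eq_norm] at this
    · have := hr0 (Or.inr ⟨t, ht, rfl⟩)
      rwa [mem_closedBall, dist_eq_norm] at this
  have H2 : HasLog (A₁ C) (A₂ C) (fun t => Φ C (zt 1 t)) 1 x₁ x₂ (Y C 0) := by
    have h1 := hH (fun _ => A₁ C) (fun _ => A₂ C) (fun _ t => Φ C (zt 1 t))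
      (fun τ => Y C ((1 - τ) * S)) 1 x₁ x₂ zero_le_one hx.le cT1 cT2 cT3 ?_
      (fun τ _ => ⟨col C hn6, ends.1, ends.2⟩) ?_ ?_ ?_
    · simp only [sub_self, zero_mul] at h1
      exact h1
    · refine (ray_contOn rY hn6).comp (f := fun τ : ℝ => (1 - τ) * S) (by fun_prop) ?_
      intro τ hτ
      exact mul_nonneg (by linarith [hτ.2]) hS0
    · intro τ hτ u hu
      exact (av _ (mul_nonneg (by linarith [hτ.2]) hS0)).1 u hu
    · intro τ hτ t ht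
      exact (av _ (mul_nonneg (by linarith [hτ.2]) hS0)).2 t ht
    · simp only [sub_zero, one_mul]
      exact H1
  have h1 := hH (fun _ => A₁ C) (fun _ => A₂ C) (fun _ t => Φ C (zt 1 t))
    (fun τ => Y C 0 + (τ : ℂ) * (z - Y C 0)) 1 x₁ x₂ zero_le_one hx.le cT1 cT2 cT3
    (by fun_prop) (fun τ _ => ⟨col C hn6, ends.1, ends.2⟩) ?_ ?_ ?_
  · simp only [Complex.ofReal_one, one_mul, add_sub_cancel] at h1
    exact h1
  · intro τ hτ u hu
    have hmem : Y C 0 + (τ : ℂ) * (z - Y C 0) ∈ ball (Y c0 0) r := by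
      have h2 := (convex_ball (Y c0 0) r).add_smul_sub_mem hn5 hnz hτ
      rwa [Complex.real_smul] at h2
    have h3 := (hf hn7 (hball _ hmem)).1
    have h4 := h3.1 u hu
    have h5 := h3.2 u hu
    simp only [max_eq_left hu.1] at h4 h5
    exact ⟨h4, h5⟩
  · intro τ hτ t ht
    have hmem : Y C 0 + (τ : ℂ) * (z - Y C 0) ∈ ball (Y c0 0) r := by
      have h2 := (convex_ball (Y c0 0) r).add_smul_sub_mem hn5 hnz hτ
      rwa [Complex.real_smul] at h2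
    exact (hf hn7 (hball _ hmem)).2 t ht
  · simp only [Complex.ofReal_zero, zero_mul, add_zero]
    exact H2

theorem t (hG : St_Grn) (hF : St_Far) (hH : St_Hom) (hE : St_Enc) : St_Sla := by
  intro d Φ β c0 θ i x₁ x₂ ε A₁ A₂ D₁ D₂ B h
  have hd := h.d2
  have hb := h.bott
  obtain ⟨hGc, -, -, -⟩ := hG d hd
  have hc0 := mem_ball_self (x := c0) h.eps
  have hdR : (2 : ℝ) ≤ d := by exact_mod_cast hd
  have hd0 : (0 : ℝ) < d := by linarith
  have hθ0 := h.th0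
  have hθ1 := h.th1
  have hi0 : (0 : ℝ) ≤ i := by exact_mod_cast h.i0
  have hi1 : (i : ℝ) + 2 ≤ d := by exact_mod_cast h.i1
  have hx1l := h.x1l
  have hx1r := h.x1r
  have hx2l := h.x2l
  have hx2r := h.x2r
  have hx10 : 0 < x₁ := lt_of_le_of_lt (div_nonneg (by linarith) hd0.le) hx1l
  have hx21 : x₂ < 1 := by
    refine hx2r.trans_le ?_
    rw [div_le_one hd0]
    linarith
  have hx12 : x₂ < x₁ + 1 := by linarith
  have a1 : x₁ / d < x₁ := by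
    rw [div_lt_iff₀ hd0]
    nlinarith
  have a2 : x₂ - 1 < (x₂ - 1) / d := by
    rw [lt_div_iff₀ hd0]
    nlinarith
  have a3 : 0 < x₁ / d := by positivity
  have a4 : (x₂ - 1) / d < 0 := div_neg_of_neg_of_pos (by linarith) hd0
  have a5 : θ - 1 < (x₂ - 1) / d := by linarith
  have a6 : x₁ / d < θ := by linarith
  set K : Set ℂ := D₁ c0 '' Icc 0 (1 / (d : ℝ)) ∪ D₂ c0 '' Icc 0 (1 / (d : ℝ)) ∪
    B c0 '' Icc 0 (1 / (d : ℝ)) ∪
      (fun t : ℝ => Φ c0 (zt (1 / d) t)) '' Icc ((x₂ - 1) / d) (x₁ / d) with hKdef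
  have hd1 : 0 < 1 / (d : ℝ) := by positivity
  have hK : IsCompact K :=
    (((isCompact_Icc.image_of_continuousOn ((ray_contOn h.rD1 hc0).mono Icc_subset_Ici_self)).union
      (isCompact_Icc.image_of_continuousOn ((ray_contOn h.rD2 hc0).mono Icc_subset_Ici_self))).union
      (isCompact_Icc.image_of_continuousOn ((ray_contOn h.rB hc0).mono Icc_subset_Ici_self))).union
      (isCompact_Icc.image_of_continuousOn (cap_contOn hGc hb (by rwa [h.conn])))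
  suffices H : ∃ δ G₁ : ℝ, 0 < δ ∧ 0 < G₁ ∧ ∀ G : ℝ, 0 < G → G < G₁ → ∀ s : ℝ, G ≤ s →
      ∀ z ∈ K, δ ≤ ‖Φ (pa β θ G) (zt s θ) - z‖ by
    obtain ⟨δ, G₁, h1, h2, h3⟩ := H
    refine ⟨δ, G₁, h1, h2, fun G hG0 hG1 s hs => ⟨fun u hu => ⟨?_, ?_, ?_⟩, fun t ht => ?_⟩⟩
    · exact h3 G hG0 hG1 s hs _ (Or.inl (Or.inl (Or.inl ⟨u, hu, rfl⟩)))
    · exact h3 G hG0 hG1 s hs _ (Or.inl (Or.inl (Or.inr ⟨u, hu, rfl⟩)))
    · exact h3 G hG0 hG1 s hs _ (Or.inl (Or.inr ⟨u, hu, rfl⟩))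
    · exact h3 G hG0 hG1 s hs _ (Or.inr ⟨t, ht, rfl⟩)
  by_contra hcon
  push Not at hcon
  have hseq : ∀ n : ℕ, ∃ (G s : ℝ) (z : ℂ), 0 < G ∧ G < 1 / ((n : ℝ) + 1) ∧ G ≤ s ∧ z ∈ K ∧
      ‖Φ (pa β θ G) (zt s θ) - z‖ < 1 / ((n : ℝ) + 1) := by
    intro n
    obtain ⟨G, h1, h2, s, h3, z, h4, h5⟩ := hcon (1 / ((n : ℝ) + 1)) (1 / ((n : ℝ) + 1))
      (by positivity) (by positivity)
    exact ⟨G, s, z, h1, h2, h3, h4, h5⟩
  choose G s z h1 h2 h3 h4 h5 using hseq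
  obtain ⟨zs, hzs, φ, hφ, hlim⟩ := hK.tendsto_subseq h4
  have hinv : Tendsto (fun n : ℕ => 1 / (((φ n : ℕ) : ℝ) + 1)) atTop (𝓝 0) :=
    tendsto_one_div_add_atTop_nhds_zero_nat.comp hφ.tendsto_atTop
  have hG0 : Tendsto (fun n => G (φ n)) atTop (𝓝[>] 0) := by
    rw [tendsto_nhdsWithin_iff]
    refine ⟨squeeze_zero (fun n => (h1 _).le) (fun n => (h2 _).le) hinv, ?_⟩
    exact Eventually.of_forall fun n => h1 _
  have hc : Tendsto (fun n => pa β θ (G (φ n))) atTop (𝓝 c0) := h.land.comp hG0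
  have hz : Tendsto (fun n => Φ (pa β θ (G (φ n))) (zt (s (φ n)) θ)) atTop (𝓝 zs) := by
    have h6 : Tendsto (fun n => Φ (pa β θ (G (φ n))) (zt (s (φ n)) θ) - z (φ n)) atTop (𝓝 0) := by
      rw [tendsto_zero_iff_norm_tendsto_zero]
      exact squeeze_zero (fun n => norm_nonneg _) (fun n => (h5 _).le) hinv
    have h7 := h6.add hlim
    rw [zero_add] at h7
    refine h7.congr fun n => ?_
    simp
  have hlev : ∀ n, green d (pa β θ (G (φ n))) 0 < s (φ n) := by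
    intro n
    have h6 := (hb.par β h.beta (zt (G (φ n)) θ) (by rw [zt_re]; exact h1 _)).1
    rw [zt_re] at h6
    refine lt_of_lt_of_le ?_ (h3 (φ n))
    show green d (cc β (Complex.exp (-(zt (G (φ n)) θ)))) 0 < G (φ n)
    rw [h6, div_lt_iff₀ hd0]
    nlinarith [h1 (φ n)]
  have hs : Tendsto (fun n => s (φ n)) atTop (𝓝 (green d c0 zs)) := by
    have h6 := (hGc.tendsto (c0, zs)).comp (hc.prodMk_nhds hz)
    refine h6.congr fun n => ?_
    show green d (pa β θ (G (φ n))) (Φ (pa β θ (G (φ n))) (zt (s (φ n)) θ)) = s (φ n)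
    rw [hb.grn _ _ (by rw [zt_re]; exact hlev n), zt_re]
  -- points of positive level
  have pos : ∀ s0 t : ℝ, 0 < s0 → t ∈ Icc ((x₂ - 1) / d) (x₁ / d) → zs = Φ c0 (zt s0 t) →
      False := by
    intro s0 t hs0 ht hzt
    have hlt : green d c0 0 < s0 := by rwa [h.conn]
    have h6 : green d c0 zs = s0 := by
      rw [hzt, hb.grn _ _ (by rwa [zt_re]), zt_re]
    rw [h6] at hs
    have h7 : Tendsto (fun n => Φ (pa β θ (G (φ n))) (zt (s (φ n)) θ)) atTop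
        (𝓝 (Φ c0 (zt s0 θ))) := by
      have h8 : Tendsto (fun n => zt (s (φ n)) θ) atTop (𝓝 (zt s0 θ)) :=
        (continuous_zt.tendsto (s0, θ)).comp (hs.prodMk_nhds tendsto_const_nhds)
      exact (Phi_contAt hGc hb hlt).tendsto.comp (hc.prodMk_nhds h8)
    have h9 := tendsto_nhds_unique hz h7
    rw [hzt] at h9
    obtain ⟨k, hk⟩ := ang hb hlt hlt h9.symm
    have h10 : (0 : ℝ) < k := by linarith [ht.2]
    have h11 : (k : ℝ) < 1 := by linarith [ht.1]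
    have h12 : 0 < k := by exact_mod_cast h10
    have h13 : k < 1 := by exact_mod_cast h11
    omega
  have piece : ∀ (Y : ℂ → ℝ → ℂ) (y u : ℝ), Ray d Φ c0 ε y Y → Y c0 0 ≠ A₁ c0 0 →
      y ∈ Icc ((x₂ - 1) / d) (x₁ / d) → 0 ≤ u → Y c0 u = zs → False := by
    intro Y y u rY hY hy hu hzY
    rcases hu.eq_or_lt with h6 | h6
    · subst h6
      have h7 : green d c0 zs = 0 := by
        rw [← hzY]
        exact rY.grn c0 hc0 0 le_rfl
      rw [h7] at hs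
      rw [← hzY] at hz
      exact no_acc hG hF hH hE hd hb h.eps h.conn h.rA1 h.rA2 rY h.col hY (by linarith) hx12
        (by linarith [hy.1]) (by linarith [hy.2]) hx1r hx2l _ _ hc hs hlev hz
    · rw [rY.eq c0 hc0 u (by rwa [h.conn])] at hzY
      exact pos u y h6 hy hzY.symm
  rcases hzs with ((hz1 | hz1) | hz1) | hz1
  · obtain ⟨u, hu, hu2⟩ := hz1
    exact piece D₁ _ u h.rD1 h.neD1 ⟨by linarith, le_rfl⟩ hu.1 hu2
  · obtain ⟨u, hu, hu2⟩ := hz1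
    exact piece D₂ _ u h.rD2 h.neD2 ⟨le_rfl, by linarith⟩ hu.1 hu2
  · obtain ⟨u, hu, hu2⟩ := hz1
    exact piece B _ u h.rB h.neB ⟨a4.le, a3.le⟩ hu.1 hu2
  · obtain ⟨t, ht, ht2⟩ := hz1
    exact pos (1 / d) t hd1 ht ht2.symm

end Pool.Agent.Y141.LC
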